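import Pool.Agent.TH373.DR.Count

set_option autoImplicit false

/-!
The words of digits of `α f(n) + β`: for all but `X ^ (1 - c)` of the `n ≤ X` all words of length
`κ log X` at the places up to `A log X` have the right letter frequencies.
-/

namespace Pool.Agent.TH373.DR

open Finset Pool.Agent.Helper153.Vdc Pool.Agent.W226.MP

/-- the words of length `t` over the letters `0, …, B - 1` in which the letter `a` has a wrong
frequency -/
noncomputable def Zb (B t : ℕ) (ε : ℝ) (a : ℕ) : Finset ℕ :=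
  open Classical in (range (B ^ t)).filter (fun z => ε * t < |(cnt B a t z : ℝ) - t / B|)

theorem Zb_card (B t : ℕ) (ε : ℝ) (a : ℕ) (hB : 2 ≤ B) (ha : a < B) (hε : 0 < ε) (hε1 : ε ≤ 1) :
    ((Zb B t ε a).card : ℝ) ≤ 2 * Real.exp (-(ε ^ 2 / 4) * t) * (B : ℝ) ^ t := by
  classical
  have := bad_words B a hB ha ε hε hε1 t
  unfold Zb
  convert this

/-- `y` is bad at the place `i` -/
def BadAt (b k t : ℕ) (ε : ℝ) (y : ℝ) (i : ℕ) : Prop :=
  ∃ r < k, ∃ a < b ^ k, ⌊Int.fract (y * (b : ℝ) ^ (i + r)) * (((b ^ k) ^ t : ℕ) : ℝ)⌋₊ ∈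
    Zb (b ^ k) t ε a

theorem ee_norm_const (S : Finset ℕ) (g : ℕ → ℝ) (c : ℝ) :
    ‖∑ i ∈ S, ee (g i + c)‖ = ‖∑ i ∈ S, ee (g i)‖ := by
  simp only [ee_add]
  rw [← Finset.sum_mul, norm_mul, ee_norm, mul_one]

/-- `K (log X + 1)^2 ≤ X ^ c` for large `X` -/
theorem log_sq_le (K c : ℝ) (hc : 0 < c) : ∃ X0 : ℕ, ∀ X : ℕ, X0 ≤ X →
    K * (Real.log X + 1) ^ 2 ≤ (X : ℝ) ^ c := by
  have t : Filter.Tendsto (fun X : ℕ => (X : ℝ) ^ (c / 2)) Filter.atTop Filter.atTop :=
    (tendsto_rpow_atTop (by positivity)).comp tendsto_natCast_atTop_atTop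
  obtain ⟨X0, hX0⟩ := Filter.eventually_atTop.1
    (t.eventually_ge_atTop (|K| * (4 / c + 1) ^ 2))
  refine ⟨max X0 1, fun X hX => ?_⟩
  have hX1 : (1 : ℝ) ≤ X := by exact_mod_cast (le_max_right X0 1).trans hX
  have h1 := hX0 X ((le_max_left _ _).trans hX)
  have h2 := Real.log_le_rpow_div (by linarith : (0 : ℝ) ≤ X) (by positivity : 0 < c / 4)
  have h3 : (1 : ℝ) ≤ (X : ℝ) ^ (c / 4) := Real.one_le_rpow hX1 (by positivity)
  have h0 : 0 ≤ Real.log X := Real.log_nonneg hX1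
  have h4 : Real.log X + 1 ≤ (X : ℝ) ^ (c / 4) * (4 / c + 1) := by
    have : (X : ℝ) ^ (c / 4) / (c / 4) = (X : ℝ) ^ (c / 4) * (4 / c) := by field_simp
    rw [this] at h2
    linarith
  have h5 : (Real.log X + 1) ^ 2 ≤ ((X : ℝ) ^ (c / 4) * (4 / c + 1)) ^ 2 :=
    pow_le_pow_left₀ (by linarith) h4 2
  have e : ((X : ℝ) ^ (c / 4) * (4 / c + 1)) ^ 2 = (X : ℝ) ^ (c / 2) * (4 / c + 1) ^ 2 := by
    rw [mul_pow, ← Real.rpow_natCast ((X : ℝ) ^ (c / 4)) 2, ← Real.rpow_mul (by linarith)]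
    congr 2
    push_cast; ring
  calc K * (Real.log X + 1) ^ 2 ≤ |K| * ((X : ℝ) ^ (c / 2) * (4 / c + 1) ^ 2) := by
        rw [← e]
        exact mul_le_mul (le_abs_self K) h5 (by positivity) (abs_nonneg _)
    _ = (|K| * (4 / c + 1) ^ 2) * (X : ℝ) ^ (c / 2) := by ring
    _ ≤ (X : ℝ) ^ (c / 2) * (X : ℝ) ^ (c / 2) :=
        mul_le_mul_of_nonneg_right h1 (by positivity)
    _ = _ := by rw [← Real.rpow_add (by linarith)]; congr 1; ring

theorem large (a b : ℝ) (hab : a < b) (K : ℝ) : ∃ X0 : ℕ, ∀ X : ℕ, X0 ≤ X →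
    K * (X : ℝ) ^ a ≤ (X : ℝ) ^ b := by
  have t : Filter.Tendsto (fun X : ℕ => (X : ℝ) ^ (b - a)) Filter.atTop Filter.atTop :=
    (tendsto_rpow_atTop (by linarith)).comp tendsto_natCast_atTop_atTop
  obtain ⟨X0, hX0⟩ := Filter.eventually_atTop.1 (t.eventually_ge_atTop K)
  refine ⟨max X0 1, fun X hX => ?_⟩
  have hX1 : (0 : ℝ) < X := by exact_mod_cast (le_max_right X0 1).trans hX
  have h1 := hX0 X ((le_max_left _ _).trans hX)
  calc K * (X : ℝ) ^ a ≤ (X : ℝ) ^ (b - a) * (X : ℝ) ^ a :=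
        mul_le_mul_of_nonneg_right h1 (by positivity)
    _ = _ := by rw [← Real.rpow_add hX1]; congr 1; ring

/-- **Core theorem.** -/
theorem core {θ : ℝ} {k0 : ℕ} {s : ℝ} {c : ℕ → ℝ} {f : ℕ → ℝ → ℝ} (hf : Fam θ k0 s c f)
    (b k : ℕ) (hb : 2 ≤ b) (hk : 1 ≤ k) (ε : ℝ) (hε : 0 < ε) (hε1 : ε ≤ 1) (α β : ℝ) (hα : α ≠ 0)
    (g0 A : ℝ) (hg0 : 0 ≤ g0) (hA : 0 < A)
    (hE : ((max 2 k0 : ℕ) : ℝ) - 2 - θ < g0 * Real.log b) (κ0 : ℝ) (hκ0 : 0 < κ0) :
    ∃ κ : ℝ, 0 < κ ∧ κ ≤ κ0 ∧ ∃ c' : ℝ, 0 < c' ∧ ∃ X0 : ℕ, ∀ X : ℕ, X0 ≤ X →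
      ∀ p : ℕ → Prop, ∀ _ : DecidablePred p,
      (∀ n, p n → ∃ i : ℕ, g0 * Real.log X ≤ i ∧ i ≤ A * Real.log X ∧
        BadAt b k ⌊κ * Real.log X⌋₊ ε (α * f 0 n + β) i) →
      (((Icc 1 X).filter p).card : ℝ) ≤ (X : ℝ) ^ (1 - c') := by
  classical
  set E : ℝ := ((max 2 k0 : ℕ) : ℝ) - 2 - θ with hEdef
  have hbR : (2 : ℝ) ≤ b := by exact_mod_cast hb
  have hlb : 0 < Real.log b := Real.log_pos (by linarith)
  -- the exponent `η`
  obtain ⟨η, hη, hη1, γ, hγ, hPγ⟩ : ∃ η : ℝ, 0 < η ∧ η ≤ 1 / 2 ∧ ∃ γ : ℝ, γ < g0 * Real.log b ∧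
      ∀ P X : ℕ, 1 ≤ P → P ≤ X → X ≤ P ^ 2 → (P : ℝ) ^ (E + η) ≤ (X : ℝ) ^ γ := by
    rcases lt_or_ge E 0 with hneg | hpos
    · refine ⟨min (1 / 2) (-E / 2), lt_min (by norm_num) (by linarith), min_le_left _ _,
        (E + min (1 / 2) (-E / 2)) / 2, ?_, ?_⟩
      · have : min (1 / 2) (-E / 2) ≤ -E / 2 := min_le_right _ _
        have : 0 ≤ g0 * Real.log b := by positivity
        linarith
      · intro P X hP hPX hX
        have hle : E + min (1 / 2) (-E / 2) ≤ 0 := by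
          have : min (1 / 2) (-E / 2) ≤ -E / 2 := min_le_right _ _
          linarith
        have hP0 : (0 : ℝ) < P := by exact_mod_cast hP
        have hX0 : (0 : ℝ) < X := by exact_mod_cast (by omega : 0 < X)
        have h1 : (P : ℝ) ^ (E + min (1 / 2) (-E / 2)) =
            ((P : ℝ) ^ 2) ^ ((E + min (1 / 2) (-E / 2)) / 2) := by
          rw [← Real.rpow_natCast (P : ℝ) 2, ← Real.rpow_mul hP0.le]
          congr 1
          push_cast; ring
        rw [h1]
        exact Real.rpow_le_rpow_of_nonpos hX0 (by exact_mod_cast hX) (by linarith)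
    · have hd : 0 < g0 * Real.log b - E := by linarith
      refine ⟨min (1 / 2) ((g0 * Real.log b - E) / 2), lt_min (by norm_num) (by linarith),
        min_le_left _ _, E + min (1 / 2) ((g0 * Real.log b - E) / 2), ?_, ?_⟩
      · have : min (1 / 2) ((g0 * Real.log b - E) / 2) ≤ (g0 * Real.log b - E) / 2 :=
          min_le_right _ _
        linarith
      · intro P X hP hPX _
        apply Real.rpow_le_rpow (by positivity) (by exact_mod_cast hPX)
        have : 0 < min (1 / 2) ((g0 * Real.log b - E) / 2) := lt_min (by norm_num) (by linarith)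
        linarith
  -- the exponential sums
  set A2 : ℝ := A * Real.log b + 2 with hA2
  have hA2pos : 0 < A2 := by positivity
  obtain ⟨σ, hσ, C, hC, hsum⟩ := expsum hf η (2 * A2) hη hη1
  set σ' := min σ (1 / 2) with hσ'
  have hσ'0 : 0 < σ' := lt_min hσ (by norm_num)
  have hkR : (1 : ℝ) ≤ k := by exact_mod_cast hk
  set κ := min κ0 (σ' / (2 * k * Real.log b)) with hκdef
  have hκ : 0 < κ := lt_min hκ0 (by positivity)
  have hκ2 : κ * (k * Real.log b) ≤ σ' / 2 := by
    calc κ * (k * Real.log b) ≤ σ' / (2 * k * Real.log b) * (k * Real.log b) :=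
          mul_le_mul_of_nonneg_right (min_le_right _ _) (by positivity)
      _ = σ' / 2 := by field_simp
  set c1 : ℝ := ε ^ 2 / 4 * κ with hc1
  have hc10 : 0 < c1 := by positivity
  set K1 : ℝ := (A + 1) * k * (b : ℝ) ^ k * (2 * Real.exp (ε ^ 2 / 4) * (32 + 4 * C)) with hK1
  have hK10 : 0 < K1 := by positivity
  set c2 : ℝ := min c1 (1 / 4) / 2 with hc2
  have hc20 : 0 < c2 := by positivity
  refine ⟨κ, hκ, min_le_left _ _, c2, hc20, ?_⟩
  obtain ⟨X1, hX1⟩ := large γ (g0 * Real.log b) hγ |α|⁻¹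
  obtain ⟨X2, hX2⟩ := large (A2 - 1) A2 (by linarith) (|α| * (b : ℝ) ^ k)
  obtain ⟨X3, hX3⟩ := log_sq_le (4 * K1) c2 hc20
  obtain ⟨X4, hX4⟩ := large (1 / 2) (1 - c2) (by
    have : min c1 (1 / 4) ≤ 1 / 4 := min_le_right _ _
    linarith) 4
  have hX5 : ∃ X5 : ℕ, ∀ X : ℕ, X5 ≤ X → 2 ≤ κ * Real.log X := by
    have t : Filter.Tendsto (fun X : ℕ => κ * Real.log X) Filter.atTop Filter.atTop :=
      (Real.tendsto_log_atTop.comp tendsto_natCast_atTop_atTop).const_mul_atTop hκ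
    exact Filter.eventually_atTop.1 (t.eventually_ge_atTop 2)
  obtain ⟨X5, hX5⟩ := hX5
  refine ⟨max (max X1 X2) (max (max X3 X4) (max X5 3)), fun X hX p _ hp => ?_⟩
  simp only [max_le_iff] at hX
  obtain ⟨⟨g1, g2⟩, ⟨g3, g4⟩, g5, g6⟩ := hX
  have hX1' : (1 : ℝ) ≤ X := by exact_mod_cast (by omega : 1 ≤ X)
  have hXpos : (0 : ℝ) < X := by linarith
  have hlog : 1 ≤ Real.log X := by
    rw [Real.le_log_iff_exp_le hXpos]
    have : Real.exp 1 < 2.7182818286 := Real.exp_one_lt_d9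
    have : (3 : ℝ) ≤ X := by exact_mod_cast g6
    linarith
  set t : ℕ := ⌊κ * Real.log X⌋₊ with ht
  have ht2 : 2 ≤ t := Nat.le_floor (by exact_mod_cast hX5 X g5)
  have htle : (t : ℝ) ≤ κ * Real.log X := Nat.floor_le (by positivity)
  have htge : κ * Real.log X - 1 ≤ t := by
    have := Nat.lt_floor_add_one (κ * Real.log X); linarith
  set W : ℕ := (b ^ k) ^ t with hW
  have hbk : 2 ≤ b ^ k := by
    calc 2 ≤ b := hb
      _ = b ^ 1 := (pow_one b).symm
      _ ≤ b ^ k := Nat.pow_le_pow_right (by omega) hk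
  have hW4 : 4 ≤ W := by
    calc 4 = 2 ^ 2 := by norm_num
      _ ≤ (b ^ k) ^ 2 := Nat.pow_le_pow_left hbk 2
      _ ≤ (b ^ k) ^ t := Nat.pow_le_pow_right (by omega) ht2
  have hWle : (W : ℝ) ≤ (X : ℝ) ^ (σ' / 2) := by
    have e1 : (W : ℝ) = Real.exp ((k * Real.log b) * t) := by
      rw [hW]; push_cast
      rw [← pow_mul, ← Real.exp_log (show (0 : ℝ) < b by linarith), ← Real.exp_nat_mul,
        Real.exp_log (show (0 : ℝ) < b by linarith)]
      congr 1; push_cast; ring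
    rw [e1, Real.rpow_def_of_pos hXpos]
    apply Real.exp_le_exp.2
    calc (k * Real.log b) * t ≤ (k * Real.log b) * (κ * Real.log X) :=
          mul_le_mul_of_nonneg_left htle (by positivity)
      _ = (κ * (k * Real.log b)) * Real.log X := by ring
      _ ≤ σ' / 2 * Real.log X := mul_le_mul_of_nonneg_right hκ2 (by linarith)
      _ = _ := by ring
  have hWpos : (0 : ℝ) < W := by exact_mod_cast (by omega : 0 < W)
  -- one block, one place
  have hplace : ∀ P M : ℕ, P + M ≤ X → Nat.sqrt X + 1 ≤ P → M ≤ P → ∀ i : ℕ,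
      g0 * Real.log X ≤ i → i ≤ A * Real.log X → ∀ r < k, ∀ a < b ^ k,
      (((range M).filter (fun m => ⌊Int.fract ((α * f 0 ((P + 1 + m : ℕ) : ℝ) + β) * (b : ℝ) ^ (i + r))
        * (W : ℝ)⌋₊ ∈ Zb (b ^ k) t ε a)).card : ℝ) ≤
        2 * Real.exp (ε ^ 2 / 4) * (32 + 4 * C) * (X : ℝ) ^ (1 - c1) := by
    intro P M hPM hsq hMP i hi1 hi2 r hr a ha
    have hP1 : 1 ≤ P := by omega
    have hPX : P ≤ X := by omega
    have hXP : X ≤ P ^ 2 := by
      have := Nat.lt_succ_sqrt' X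
      calc X ≤ (Nat.sqrt X + 1) ^ 2 := this.le
        _ ≤ P ^ 2 := Nat.pow_le_pow_left hsq 2
    have hP1R : (1 : ℝ) ≤ P := by exact_mod_cast hP1
    have hPpos : (0 : ℝ) < P := by linarith
    have hbi : (b : ℝ) ^ i = Real.exp (i * Real.log b) := by
      rw [← Real.exp_log (show (0 : ℝ) < b by linarith), ← Real.exp_nat_mul,
        Real.exp_log (show (0 : ℝ) < b by linarith)]
    have hα0 : 0 < |α| := abs_pos.2 hα
    have hD : ∀ h : ℤ, h ≠ 0 → |h| < W → ‖∑ m ∈ range M,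
        ee (h * ((α * f 0 ((P + 1 + m : ℕ) : ℝ) + β) * (b : ℝ) ^ (i + r)))‖ ≤ C * (X : ℝ) ^ (1 - σ') := by
      intro h h0 hhW
      have e1 : ∀ m : ℕ, (h : ℝ) * ((α * f 0 ((P + 1 + m : ℕ) : ℝ) + β) * (b : ℝ) ^ (i + r)) =
          (h * α * (b : ℝ) ^ (i + r)) * f 0 ((P : ℝ) + 1 + m) + h * β * (b : ℝ) ^ (i + r) := by
        intro m; push_cast; ring
      simp only [e1]
      rw [ee_norm_const (range M) (fun m : ℕ => (h * α * (b : ℝ) ^ (i + r)) * f 0 ((P : ℝ) + 1 + m))]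
      have hh1 : (1 : ℝ) ≤ |(h : ℝ)| := by exact_mod_cast Int.one_le_abs h0
      have hhWR : |(h : ℝ)| ≤ W := by exact_mod_cast hhW.le
      have eabs : |(h : ℝ) * α * (b : ℝ) ^ (i + r)| = |(h : ℝ)| * |α| * (b : ℝ) ^ (i + r) := by
        rw [abs_mul, abs_mul, abs_of_pos (show (0 : ℝ) < (b : ℝ) ^ (i + r) by positivity)]
      have hbr : (1 : ℝ) ≤ (b : ℝ) ^ r := one_le_pow₀ (by linarith)
      refine (hsum P M _ hP1 hMP ?_ ?_).trans ?_
      · -- lower bound of the frequency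
        refine (hPγ P X hP1 hPX hXP).trans ?_
        have h3 := hX1 X g1
        have h4 : (X : ℝ) ^ γ ≤ |α| * (X : ℝ) ^ (g0 * Real.log b) := by
          rw [inv_mul_le_iff₀ hα0] at h3
          exact h3
        refine h4.trans ?_
        rw [eabs, pow_add]
        have h5 : (X : ℝ) ^ (g0 * Real.log b) ≤ (b : ℝ) ^ i := by
          rw [hbi, Real.rpow_def_of_pos hXpos]
          apply Real.exp_le_exp.2
          calc Real.log X * (g0 * Real.log b) = (g0 * Real.log X) * Real.log b := by ring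
            _ ≤ i * Real.log b := mul_le_mul_of_nonneg_right hi1 hlb.le
        calc |α| * (X : ℝ) ^ (g0 * Real.log b) ≤ |α| * (b : ℝ) ^ i :=
              mul_le_mul_of_nonneg_left h5 hα0.le
          _ = 1 * |α| * ((b : ℝ) ^ i * 1) := by ring
          _ ≤ _ := by gcongr
      · -- upper bound of the frequency
        rw [eabs, pow_add]
        have h5 : (b : ℝ) ^ i ≤ (X : ℝ) ^ (A * Real.log b) := by
          rw [hbi, Real.rpow_def_of_pos hXpos]
          apply Real.exp_le_exp.2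
          calc (i : ℝ) * Real.log b ≤ (A * Real.log X) * Real.log b :=
                mul_le_mul_of_nonneg_right hi2 hlb.le
            _ = _ := by ring
        have h6 : (b : ℝ) ^ r ≤ (b : ℝ) ^ k := pow_le_pow_right₀ (by linarith) hr.le
        have h7 : (W : ℝ) ≤ X := by
          calc (W : ℝ) ≤ (X : ℝ) ^ (σ' / 2) := hWle
            _ ≤ (X : ℝ) ^ (1 : ℝ) := Real.rpow_le_rpow_of_exponent_le hX1' (by
                have : σ' ≤ 1 / 2 := min_le_right _ _
                linarith)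
            _ = X := Real.rpow_one _
        have h8 := hX2 X g2
        calc |(h : ℝ)| * |α| * ((b : ℝ) ^ i * (b : ℝ) ^ r)
            ≤ X * |α| * ((X : ℝ) ^ (A * Real.log b) * (b : ℝ) ^ k) := by
              gcongr
              exact hhWR.trans h7
          _ = (|α| * (b : ℝ) ^ k) * (X : ℝ) ^ (A2 - 1) := by
              have : (X : ℝ) ^ (A2 - 1) = X * (X : ℝ) ^ (A * Real.log b) := by
                rw [hA2]
                nth_rewrite 2 [← Real.rpow_one (X : ℝ)]
                rw [← Real.rpow_add hXpos]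
                congr 1; ring
              rw [this]; ring
          _ ≤ (X : ℝ) ^ A2 := h8
          _ ≤ ((P : ℝ) ^ 2) ^ A2 := by
              apply Real.rpow_le_rpow hXpos.le _ hA2pos.le
              exact_mod_cast hXP
          _ = (P : ℝ) ^ (2 * A2) := by
              rw [← Real.rpow_natCast (P : ℝ) 2, ← Real.rpow_mul hPpos.le]
              norm_num
      · apply mul_le_mul_of_nonneg_left _ (by linarith)
        calc (P : ℝ) ^ (1 - σ) ≤ (P : ℝ) ^ (1 - σ') :=
              Real.rpow_le_rpow_of_exponent_le hP1R (by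
                have : σ' ≤ σ := min_le_left _ _
                linarith)
          _ ≤ (X : ℝ) ^ (1 - σ') := by
              apply Real.rpow_le_rpow hPpos.le (by exact_mod_cast hPX)
              have : σ' ≤ 1 / 2 := min_le_right _ _
              linarith
    have hcw := count_words (range M) (fun m => (α * f 0 ((P + 1 + m : ℕ) : ℝ) + β) * (b : ℝ) ^ (i + r))
      W hW4 (C * (X : ℝ) ^ (1 - σ')) (by positivity) hD (Zb (b ^ k) t ε a)
    refine hcw.trans ?_
    rw [card_range]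
    have hZ := Zb_card (b ^ k) t ε a hbk ha hε hε1
    have eW : (((b ^ k : ℕ) : ℝ)) ^ t = W := by rw [hW]; push_cast; rfl
    rw [eW] at hZ
    have hMX : (M : ℝ) ≤ X := by exact_mod_cast (by omega : M ≤ X)
    have h1 : 32 * (M : ℝ) / W + 4 * (C * (X : ℝ) ^ (1 - σ')) ≤ (32 + 4 * C) * X / W := by
      rw [le_div_iff₀ hWpos]
      have h2 : (X : ℝ) ^ (1 - σ') * W ≤ X := by
        calc (X : ℝ) ^ (1 - σ') * W ≤ (X : ℝ) ^ (1 - σ') * (X : ℝ) ^ (σ' / 2) :=
              mul_le_mul_of_nonneg_left hWle (by positivity)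
          _ = (X : ℝ) ^ (1 - σ' / 2) := by rw [← Real.rpow_add hXpos]; congr 1; ring
          _ ≤ (X : ℝ) ^ (1 : ℝ) := Real.rpow_le_rpow_of_exponent_le hX1' (by linarith)
          _ = X := Real.rpow_one _
      have e3 : (32 * (M : ℝ) / W + 4 * (C * (X : ℝ) ^ (1 - σ'))) * W =
          32 * M + 4 * C * ((X : ℝ) ^ (1 - σ') * W) := by
        field_simp
      rw [e3]
      nlinarith
    have h4 : Real.exp (-(ε ^ 2 / 4) * t) ≤ Real.exp (ε ^ 2 / 4) * (X : ℝ) ^ (-c1) := by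
      rw [Real.rpow_def_of_pos hXpos, ← Real.exp_add]
      apply Real.exp_le_exp.2
      have : ε ^ 2 / 4 * (κ * Real.log X - 1) ≤ ε ^ 2 / 4 * t :=
        mul_le_mul_of_nonneg_left htge (by positivity)
      rw [hc1]
      nlinarith
    calc ((Zb (b ^ k) t ε a).card : ℝ) * (32 * (M : ℝ) / W + 4 * (C * (X : ℝ) ^ (1 - σ')))
        ≤ (2 * Real.exp (-(ε ^ 2 / 4) * t) * W) * ((32 + 4 * C) * X / W) :=
          mul_le_mul hZ h1 (by positivity) (by positivity)
      _ = 2 * Real.exp (-(ε ^ 2 / 4) * t) * (32 + 4 * C) * X := by field_simp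
      _ ≤ 2 * (Real.exp (ε ^ 2 / 4) * (X : ℝ) ^ (-c1)) * (32 + 4 * C) * X := by gcongr
      _ = 2 * Real.exp (ε ^ 2 / 4) * (32 + 4 * C) * ((X : ℝ) ^ (-c1) * (X : ℝ) ^ (1 : ℝ)) := by
          rw [Real.rpow_one]; ring
      _ = _ := by rw [← Real.rpow_add hXpos]; congr 2; ring
  -- one block
  set Bl : ℝ := K1 * (Real.log X + 1) * (X : ℝ) ^ (1 - c1) with hBl
  have hblock : ∀ P M : ℕ, P + M ≤ X → Nat.sqrt X + 1 ≤ P → M ≤ P →
      (((range M).filter (fun m => p (P + 1 + m))).card : ℝ) ≤ Bl := by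
    intro P M hPM hsq hMP
    set I : Finset ℕ := (range (⌊A * Real.log X⌋₊ + 1)).filter (fun i => g0 * Real.log X ≤ (i : ℝ)) with hI
    have hsub : (range M).filter (fun m => p (P + 1 + m)) ⊆
        I.biUnion fun i => (range k).biUnion fun r => (range (b ^ k)).biUnion fun a =>
          (range M).filter (fun m => ⌊Int.fract ((α * f 0 ((P + 1 + m : ℕ) : ℝ) + β) *
            (b : ℝ) ^ (i + r)) * (W : ℝ)⌋₊ ∈ Zb (b ^ k) t ε a) := by
      intro m hm
      rw [mem_filter] at hm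
      obtain ⟨i, hi1, hi2, r, hr, a, ha, hz⟩ := hp _ hm.2
      simp only [mem_biUnion, mem_range, mem_filter, hI]
      exact ⟨i, ⟨Nat.lt_succ_of_le (Nat.le_floor hi2), hi1⟩, r, hr, a, ha, mem_range.1 hm.1, hz⟩
    have hcard : (((range M).filter (fun m => p (P + 1 + m))).card : ℝ) ≤
        ∑ i ∈ I, ∑ r ∈ range k, ∑ a ∈ range (b ^ k),
          (((range M).filter (fun m => ⌊Int.fract ((α * f 0 ((P + 1 + m : ℕ) : ℝ) + β) *
            (b : ℝ) ^ (i + r)) * (W : ℝ)⌋₊ ∈ Zb (b ^ k) t ε a)).card : ℝ) := by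
      have h1 := card_le_card hsub
      have h2 : (I.biUnion fun i => (range k).biUnion fun r => (range (b ^ k)).biUnion fun a =>
          (range M).filter (fun m => ⌊Int.fract ((α * f 0 ((P + 1 + m : ℕ) : ℝ) + β) *
            (b : ℝ) ^ (i + r)) * (W : ℝ)⌋₊ ∈ Zb (b ^ k) t ε a)).card ≤
          ∑ i ∈ I, ∑ r ∈ range k, ∑ a ∈ range (b ^ k),
          ((range M).filter (fun m => ⌊Int.fract ((α * f 0 ((P + 1 + m : ℕ) : ℝ) + β) *
            (b : ℝ) ^ (i + r)) * (W : ℝ)⌋₊ ∈ Zb (b ^ k) t ε a)).card := by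
        refine card_biUnion_le.trans (sum_le_sum fun i _ => ?_)
        refine card_biUnion_le.trans (sum_le_sum fun r _ => ?_)
        exact card_biUnion_le
      exact_mod_cast h1.trans h2
    refine hcard.trans ?_
    have h3 : ∀ i ∈ I, ∑ r ∈ range k, ∑ a ∈ range (b ^ k),
          (((range M).filter (fun m => ⌊Int.fract ((α * f 0 ((P + 1 + m : ℕ) : ℝ) + β) *
            (b : ℝ) ^ (i + r)) * (W : ℝ)⌋₊ ∈ Zb (b ^ k) t ε a)).card : ℝ) ≤
          k * ((b : ℝ) ^ k * (2 * Real.exp (ε ^ 2 / 4) * (32 + 4 * C) * (X : ℝ) ^ (1 - c1))) := by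
      intro i hi
      rw [hI, mem_filter, mem_range] at hi
      have hi2 : (i : ℝ) ≤ A * Real.log X :=
        (Nat.le_floor_iff (by positivity)).1 (Nat.lt_succ_iff.1 hi.1)
      calc _ ≤ ∑ r ∈ range k, ∑ a ∈ range (b ^ k),
            (2 * Real.exp (ε ^ 2 / 4) * (32 + 4 * C) * (X : ℝ) ^ (1 - c1)) := by
            apply sum_le_sum; intro r hr
            apply sum_le_sum; intro a ha
            exact hplace P M hPM hsq hMP i hi.2 hi2 r (mem_range.1 hr) a (mem_range.1 ha)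
        _ = _ := by
            rw [sum_const, sum_const, card_range, card_range, nsmul_eq_mul, nsmul_eq_mul]
            push_cast; ring
    have hIc : (I.card : ℝ) ≤ (A + 1) * (Real.log X + 1) := by
      have h4 : I.card ≤ ⌊A * Real.log X⌋₊ + 1 := by
        rw [hI]; exact (card_filter_le _ _).trans (by rw [card_range])
      have h5 : (I.card : ℝ) ≤ ⌊A * Real.log X⌋₊ + 1 := by exact_mod_cast h4
      have h6 : (⌊A * Real.log X⌋₊ : ℝ) ≤ A * Real.log X := Nat.floor_le (by positivity)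
      nlinarith
    calc _ ≤ ∑ i ∈ I, (k * ((b : ℝ) ^ k * (2 * Real.exp (ε ^ 2 / 4) * (32 + 4 * C) *
            (X : ℝ) ^ (1 - c1)))) := sum_le_sum h3
      _ = I.card * (k * ((b : ℝ) ^ k * (2 * Real.exp (ε ^ 2 / 4) * (32 + 4 * C) *
            (X : ℝ) ^ (1 - c1)))) := by rw [sum_const, nsmul_eq_mul]
      _ ≤ (A + 1) * (Real.log X + 1) * (k * ((b : ℝ) ^ k * (2 * Real.exp (ε ^ 2 / 4) *
            (32 + 4 * C) * (X : ℝ) ^ (1 - c1)))) :=
          mul_le_mul_of_nonneg_right hIc (by positivity)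
      _ = _ := by rw [hBl, hK1]; ring
  have hBl0 : 0 ≤ Bl := by positivity
  -- dyadic sum
  have hXj : X ≤ 2 ^ (Nat.log 2 X + 1) * (Nat.sqrt X + 1) := by
    have h1 : X < 2 ^ (Nat.log 2 X + 1) := Nat.lt_pow_succ_log_self (by norm_num) X
    calc X ≤ 2 ^ (Nat.log 2 X + 1) * 1 := by omega
      _ ≤ _ := Nat.mul_le_mul_left _ (by omega)
  have hfin : (((Icc 1 X).filter p).card : ℝ) ≤ ((Nat.sqrt X + 1 : ℕ) : ℝ) +
      ((Nat.log 2 X + 1 : ℕ) : ℝ) * Bl := by
    have key : ∀ j Y : ℕ, Y ≤ X → Y ≤ 2 ^ j * (Nat.sqrt X + 1) →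
        (((Icc 1 Y).filter p).card : ℝ) ≤ ((Nat.sqrt X + 1 : ℕ) : ℝ) + j * Bl := by
      intro j
      induction j with
      | zero =>
        intro Y _ hY
        have h1 : ((Icc 1 Y).filter p).card ≤ Nat.sqrt X + 1 := by
          refine (card_filter_le _ _).trans ?_
          rw [Nat.card_Icc]; simp at hY; omega
        have h2 : (((Icc 1 Y).filter p).card : ℝ) ≤ ((Nat.sqrt X + 1 : ℕ) : ℝ) := by
          exact_mod_cast h1
        simpa using h2
      | succ j ih =>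
        intro Y hY0 hY
        set Z := Nat.sqrt X + 1 with hZdef
        rcases le_or_gt Y Z with hle | hgt
        · have h1 : ((Icc 1 Y).filter p).card ≤ Z := by
            refine (card_filter_le _ _).trans ?_
            rw [Nat.card_Icc]; omega
          have h2 : (((Icc 1 Y).filter p).card : ℝ) ≤ Z := by exact_mod_cast h1
          have : (0 : ℝ) ≤ ((j + 1 : ℕ) : ℝ) * Bl := by positivity
          linarith
        · set P := max Z ((Y + 1) / 2) with hP
          have hP1 : Z ≤ P := le_max_left _ _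
          have hP2 : (Y + 1) / 2 ≤ P := le_max_right _ _
          have hPY : P ≤ Y := by
            rw [hP]; apply max_le hgt.le; omega
          have hP3 : P ≤ 2 ^ j * Z := by
            rw [hP]
            apply max_le
            · exact Nat.le_mul_of_pos_left _ (by positivity)
            · rw [pow_succ] at hY
              have : 2 ^ j * 2 * Z = 2 * (2 ^ j * Z) := by ring
              omega
          have e1 : (Icc 1 Y).filter p ⊆ (Icc 1 P).filter p ∪
              ((range (Y - P)).filter (fun m => p (P + 1 + m))).image (fun m => P + 1 + m) := by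
            intro n hn
            rw [mem_filter, mem_Icc] at hn
            rw [mem_union]
            rcases le_or_gt n P with hnP | hnP
            · left; rw [mem_filter, mem_Icc]; exact ⟨⟨hn.1.1, hnP⟩, hn.2⟩
            · right
              rw [mem_image]
              refine ⟨n - P - 1, ?_, by omega⟩
              rw [mem_filter, mem_range]
              refine ⟨by omega, ?_⟩
              have : P + 1 + (n - P - 1) = n := by omega
              rw [this]; exact hn.2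
          have h2 := ih P (by omega) hP3
          have h3 := hblock P (Y - P) (by omega) hP1 (by omega)
          have h4 : (((Icc 1 Y).filter p).card : ℝ) ≤ ((Icc 1 P).filter p).card +
              ((range (Y - P)).filter (fun m => p (P + 1 + m))).card := by
            exact_mod_cast (card_le_card e1).trans ((card_union_le _ _).trans
              (Nat.add_le_add_left card_image_le _))
          push_cast at h2 ⊢
          linarith
    exact key (Nat.log 2 X + 1) X le_rfl hXj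
  refine hfin.trans ?_
  have hsqrt : ((Nat.sqrt X + 1 : ℕ) : ℝ) ≤ 2 * (X : ℝ) ^ (1 / 2 : ℝ) := by
    push_cast
    have h1 : (Nat.sqrt X : ℝ) ≤ (X : ℝ) ^ (1 / 2 : ℝ) := by
      rw [← Real.sqrt_eq_rpow]; exact Real.nat_sqrt_le_real_sqrt
    have h2 : (1 : ℝ) ≤ (X : ℝ) ^ (1 / 2 : ℝ) := Real.one_le_rpow hX1' (by norm_num)
    linarith
  have hlog2 : ((Nat.log 2 X + 1 : ℕ) : ℝ) ≤ 2 * (Real.log X + 1) := by
    push_cast
    have h1 : (Nat.log 2 X : ℝ) ≤ Real.log X / Real.log 2 := by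
      have := Real.natLog_le_logb X 2
      simpa [Real.logb] using this
    have h2 : Real.log X / Real.log 2 ≤ 2 * Real.log X := by
      rw [div_le_iff₀ (Real.log_pos (by norm_num))]
      have := Real.log_two_gt_d9
      nlinarith
    linarith
  have h7 := hX3 X g3
  have h8 := hX4 X g4
  have h9 : ((Nat.log 2 X + 1 : ℕ) : ℝ) * Bl ≤ (X : ℝ) ^ (1 - c2) / 2 := by
    calc ((Nat.log 2 X + 1 : ℕ) : ℝ) * Bl ≤ 2 * (Real.log X + 1) * Bl :=
          mul_le_mul_of_nonneg_right hlog2 hBl0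
      _ = (4 * K1 * (Real.log X + 1) ^ 2) * (X : ℝ) ^ (1 - c1) / 2 := by rw [hBl]; ring
      _ ≤ (X : ℝ) ^ c2 * (X : ℝ) ^ (1 - c1) / 2 := by gcongr
      _ = (X : ℝ) ^ (c2 + (1 - c1)) / 2 := by rw [← Real.rpow_add hXpos]
      _ ≤ _ := by
          apply div_le_div_of_nonneg_right _ (by norm_num)
          apply Real.rpow_le_rpow_of_exponent_le hX1'
          have : min c1 (1 / 4) ≤ c1 := min_le_left _ _
          linarith
  linarith

end Pool.Agent.TH373.DR
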