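import Pool.Agent.TH373.DR.Vdc
import Pool.Agent.W226.MP.Freq

set_option autoImplicit false

/-!
Counting the members of a finite sequence in a short interval modulo one, from its exponential sums.
-/

namespace Pool.Agent.TH373.DR

open Finset Pool.Agent.Helper153.Vdc

theorem ee_add (x y : ℝ) : ee (x + y) = ee x * ee y := by
  unfold ee
  rw [← Complex.exp_add]
  congr 1
  push_cast
  ring

theorem ee_int (m : ℤ) : ee m = 1 := by
  unfold ee
  rw [show (2 * Real.pi * ((m : ℝ) : ℂ) * Complex.I : ℂ) = (m : ℂ) * (2 * Real.pi * Complex.I) by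
    push_cast; ring]
  exact Complex.exp_int_mul_two_pi_mul_I m

theorem ee_re (x : ℝ) : (ee x).re = Real.cos (2 * Real.pi * x) := by
  unfold ee
  rw [show (2 * Real.pi * (x : ℂ) * Complex.I : ℂ) = ((2 * Real.pi * x : ℝ) : ℂ) * Complex.I by
    push_cast; ring]
  exact Complex.exp_ofReal_mul_I_re _

/-- the kernel is large near the integers -/
theorem kernel_lower (R : ℕ) (hR : 1 ≤ R) (t : ℝ) (m : ℤ) (ht : |t - m| ≤ 1 / (8 * R)) :
    (R : ℝ) / 2 ≤ ‖∑ j ∈ range R, ee (j * t)‖ := by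
  have hR0 : (0 : ℝ) < R := by exact_mod_cast hR
  refine le_trans ?_ (Complex.re_le_norm _)
  rw [Complex.re_sum]
  have h1 : ∀ j ∈ range R, (1 : ℝ) / 2 ≤ (ee (j * t)).re := by
    intro j hj
    rw [mem_range] at hj
    have e1 : ee (j * t) = ee (j * (t - m)) := by
      have : (j : ℝ) * t = j * (t - m) + ((j * m : ℤ) : ℝ) := by push_cast; ring
      rw [this, ee_add, ee_int, mul_one]
    rw [e1, ee_re]
    have hjR : (j : ℝ) ≤ R := by exact_mod_cast hj.le
    have h2 : |(j : ℝ) * (t - m)| ≤ 1 / 8 := by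
      rw [abs_mul, abs_of_nonneg (by positivity : (0 : ℝ) ≤ j)]
      calc (j : ℝ) * |t - m| ≤ R * (1 / (8 * R)) :=
            mul_le_mul hjR ht (abs_nonneg _) hR0.le
        _ = 1 / 8 := by field_simp
    rw [← Real.cos_abs]
    have h3 : |2 * Real.pi * ((j : ℝ) * (t - m))| ≤ Real.pi / 3 := by
      rw [abs_mul, abs_of_pos (by positivity : 0 < 2 * Real.pi)]
      nlinarith [Real.pi_pos]
    rw [← Real.cos_pi_div_three]
    exact Real.cos_le_cos_of_nonneg_of_le_pi (abs_nonneg _) (by linarith [Real.pi_pos]) h3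
  calc (R : ℝ) / 2 = ∑ _j ∈ range R, (1 : ℝ) / 2 := by
        rw [sum_const, card_range, nsmul_eq_mul]; ring
    _ ≤ _ := sum_le_sum h1

/-- **Counting in a short interval.** -/
theorem count_interval {ι : Type*} (S : Finset ι) (x : ι → ℝ) (R : ℕ) (hR : 1 ≤ R) (D : ℝ)
    (hD0 : 0 ≤ D) (hD : ∀ h : ℤ, h ≠ 0 → |h| < R → ‖∑ i ∈ S, ee (h * x i)‖ ≤ D) (y : ℝ)
    (p : ι → Prop) [DecidablePred p] (hp : ∀ i, p i → ∃ m : ℤ, |x i - y - m| ≤ 1 / (8 * R)) :
    ((S.filter p).card : ℝ) ≤ 4 * S.card / R + 4 * D := by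
  have hR0 : (0 : ℝ) < R := by exact_mod_cast hR
  -- lower bound for the quadratic sum
  have h1 : ((S.filter p).card : ℝ) * (R / 2) ^ 2 ≤
      ∑ i ∈ S, ‖∑ j ∈ range R, ee (j * (x i - y))‖ ^ 2 := by
    calc ((S.filter p).card : ℝ) * (R / 2) ^ 2 = ∑ i ∈ S.filter p, ((R : ℝ) / 2) ^ 2 := by
          rw [sum_const, nsmul_eq_mul]
      _ ≤ ∑ i ∈ S.filter p, ‖∑ j ∈ range R, ee (j * (x i - y))‖ ^ 2 := by
          apply sum_le_sum
          intro i hi
          rw [mem_filter] at hi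
          obtain ⟨m, hm⟩ := hp i hi.2
          exact pow_le_pow_left₀ (by positivity) (kernel_lower R hR _ m hm) 2
      _ ≤ _ := sum_le_sum_of_subset_of_nonneg (filter_subset _ _) (fun _ _ _ => by positivity)
  -- upper bound
  have h2 : ∑ i ∈ S, ‖∑ j ∈ range R, ee (j * (x i - y))‖ ^ 2 ≤ R * S.card + R ^ 2 * D := by
    have e1 : ((∑ i ∈ S, ‖∑ j ∈ range R, ee (j * (x i - y))‖ ^ 2 : ℝ) : ℂ) =
        ∑ j ∈ range R, ∑ l ∈ range R, ee (-(((j : ℤ) - l : ℤ) : ℝ) * y) *
          ∑ i ∈ S, ee ((((j : ℤ) - l : ℤ) : ℝ) * x i) := by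
      push_cast
      have e2 : ∀ i, ((‖∑ j ∈ range R, ee (j * (x i - y))‖ : ℂ)) ^ 2 =
          ∑ j ∈ range R, ∑ l ∈ range R, ee (-(((j : ℤ) - l : ℤ) : ℝ) * y) *
            ee ((((j : ℤ) - l : ℤ) : ℝ) * x i) := by
        intro i
        rw [← Complex.mul_conj', map_sum, sum_mul_sum]
        apply sum_congr rfl
        intro j _
        apply sum_congr rfl
        intro l _
        rw [ee_mul_conj, ← ee_add]
        congr 1
        push_cast
        ring
      simp only [e2]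
      rw [sum_comm]
      apply sum_congr rfl
      intro j _
      rw [sum_comm]
      apply sum_congr rfl
      intro l _
      rw [mul_sum]
      push_cast
      rfl
    have e3 : ∑ i ∈ S, ‖∑ j ∈ range R, ee (j * (x i - y))‖ ^ 2 =
        ‖((∑ i ∈ S, ‖∑ j ∈ range R, ee (j * (x i - y))‖ ^ 2 : ℝ) : ℂ)‖ := by
      rw [Complex.norm_real, Real.norm_of_nonneg (sum_nonneg fun _ _ => by positivity)]
    rw [e3, e1]
    calc _ ≤ ∑ j ∈ range R, ∑ l ∈ range R, (if j = l then (S.card : ℝ) else D) := by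
          refine (norm_sum_le _ _).trans (sum_le_sum fun j hj => ?_)
          refine (norm_sum_le _ _).trans (sum_le_sum fun l hl => ?_)
          rw [norm_mul, ee_norm, one_mul]
          rw [mem_range] at hj hl
          split_ifs with h
          · rw [h]
            refine (norm_sum_le _ _).trans ?_
            simp [ee_norm]
          · exact hD _ (by omega) (by rw [abs_lt]; omega)
      _ ≤ ∑ j ∈ range R, ∑ l ∈ range R, ((if j = l then (S.card : ℝ) else 0) + D) := by
          apply sum_le_sum; intro j _; apply sum_le_sum; intro l _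
          split_ifs <;> linarith
      _ = _ := by
          simp only [sum_add_distrib, sum_ite_eq, sum_const, card_range, nsmul_eq_mul]
          rw [sum_congr rfl (g := fun _ => (S.card : ℝ)) (fun j hj => by rw [if_pos hj])]
          rw [sum_const, card_range, nsmul_eq_mul]
          ring
  have h3 := h1.trans h2
  have h4 : ((S.filter p).card : ℝ) * (R / 2) ^ 2 * (4 / R ^ 2) ≤ (R * S.card + R ^ 2 * D) * (4 / R ^ 2) :=
    mul_le_mul_of_nonneg_right h3 (by positivity)
  have e5 : ((S.filter p).card : ℝ) * (R / 2) ^ 2 * (4 / R ^ 2) = (S.filter p).card := by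
    field_simp
    norm_num
  have e6 : (R * S.card + R ^ 2 * D) * (4 / (R : ℝ) ^ 2) = 4 * S.card / R + 4 * D := by
    field_simp
  rw [e5, e6] at h4
  exact h4

/-- **Counting words in a set `Z`.** -/
theorem count_words {ι : Type*} (S : Finset ι) (x : ι → ℝ) (W : ℕ) (hW : 4 ≤ W) (D : ℝ)
    (hD0 : 0 ≤ D) (hD : ∀ h : ℤ, h ≠ 0 → |h| < W → ‖∑ i ∈ S, ee (h * x i)‖ ≤ D)
    (Z : Finset ℕ) :
    ((S.filter (fun i => ⌊Int.fract (x i) * (W : ℝ)⌋₊ ∈ Z)).card : ℝ) ≤
      Z.card * (32 * S.card / W + 4 * D) := by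
  classical
  have hW0 : (0 : ℝ) < W := by exact_mod_cast (by omega : 0 < W)
  set R := W / 4 with hR
  have hR1 : 1 ≤ R := by omega
  have hR0 : (0 : ℝ) < R := by exact_mod_cast hR1
  have hRW : (W : ℝ) ≤ 8 * R := by exact_mod_cast (by omega : W ≤ 8 * R)
  have hRW2 : 4 * (R : ℝ) ≤ W := by exact_mod_cast (by omega : 4 * R ≤ W)
  have h1 : ∀ z ∈ Z, ((S.filter (fun i => ⌊Int.fract (x i) * (W : ℝ)⌋₊ = z)).card : ℝ) ≤
      32 * S.card / W + 4 * D := by
    intro z _
    have h2 := count_interval S x R hR1 D hD0 (fun h h0 hh => hD h h0 (by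
      have : (R : ℤ) ≤ W := by omega
      omega)) ((z + 1 / 2) / W) (fun i => ⌊Int.fract (x i) * (W : ℝ)⌋₊ = z) (fun i hi => by
        refine ⟨⌊x i⌋, ?_⟩
        have h3 : 0 ≤ Int.fract (x i) * (W : ℝ) := mul_nonneg (Int.fract_nonneg _) hW0.le
        obtain ⟨h4, h5⟩ := (Nat.floor_eq_iff h3).1 hi
        have h6 : x i - (z + 1 / 2) / W - ⌊x i⌋ = Int.fract (x i) - (z + 1 / 2) / W := by
          unfold Int.fract; ring
        rw [h6]
        have h7 : Int.fract (x i) - (z + 1 / 2) / W = (Int.fract (x i) * W - (z + 1 / 2)) / W := by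
          field_simp
        rw [h7, abs_div, abs_of_pos hW0, div_le_div_iff₀ hW0 (by positivity)]
        have h8 : |Int.fract (x i) * W - (z + 1 / 2)| ≤ 1 / 2 := by
          rw [abs_le]; constructor <;> linarith
        calc |Int.fract (x i) * W - (z + 1 / 2)| * (8 * R) ≤ 1 / 2 * (8 * R) :=
              mul_le_mul_of_nonneg_right h8 (by positivity)
          _ ≤ 1 * W := by linarith)
    refine h2.trans ?_
    have h9 : 4 * (S.card : ℝ) / R ≤ 32 * S.card / W := by
      rw [div_le_div_iff₀ hR0 hW0]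
      have : (0 : ℝ) ≤ S.card := by positivity
      nlinarith
    linarith
  have h2 : (S.filter (fun i => ⌊Int.fract (x i) * (W : ℝ)⌋₊ ∈ Z)).card =
      ∑ z ∈ Z, (S.filter (fun i => ⌊Int.fract (x i) * (W : ℝ)⌋₊ = z)).card := by
    rw [← card_biUnion]
    · congr 1
      ext i
      simp only [mem_filter, mem_biUnion]
      constructor
      · rintro ⟨h1, h2⟩; exact ⟨_, h2, h1, rfl⟩
      · rintro ⟨z, h1, h2, h3⟩; exact ⟨h2, h3 ▸ h1⟩
    · intro a _ b _ hab
      rw [Function.onFun, disjoint_left]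
      intro i hi hi2
      rw [mem_filter] at hi hi2
      exact hab (hi.2.symm.trans hi2.2)
  rw [h2]
  push_cast
  calc _ ≤ ∑ z ∈ Z, (32 * (S.card : ℝ) / W + 4 * D) := sum_le_sum h1
    _ = _ := by rw [sum_const, nsmul_eq_mul]

end Pool.Agent.TH373.DR
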