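import Pool.Agent.Helper153.FacC

set_option autoImplicit false

/-!
Exponential sums with the phases `F n ^ θ`, `F log n` for `F` up to a fixed power of the length:
a power saving from the derivative tests.
-/

namespace Pool.Agent.TH373.DR

open Finset Pool.Agent.Helper153.Vdc

/-- the `k`-th difference is a value of the `k`-th derivative -/
theorem dd_mvt (k : ℕ) : ∀ (φ : ℕ → ℝ → ℝ) (lo hi : ℝ) (n : ℕ), lo ≤ n → (n : ℝ) + k ≤ hi →
    (∀ i x, lo ≤ x → x ≤ hi → HasDerivAt (φ i) (φ (i + 1) x) x) →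
    ∃ ξ : ℝ, (n : ℝ) ≤ ξ ∧ ξ ≤ n + k ∧ dd k (fun m : ℕ => φ 0 m) n = φ k ξ := by
  induction k with
  | zero =>
    intro φ lo hi n h1 h2 _
    exact ⟨n, le_rfl, by simp, rfl⟩
  | succ k ih =>
    intro φ lo hi n h1 h2 hd
    push_cast at h2
    obtain ⟨ξ, g1, g2, g3⟩ := ih (fun i x => φ i (x + 1) - φ i x) lo (hi - 1) n h1 (by linarith)
      (fun i x hx1 hx2 => by
        have a1 := hd i (x + 1) (by linarith) (by linarith)
        have a2 := hd i x hx1 (by linarith)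
        have a3 : HasDerivAt (fun y : ℝ => φ i (y + 1)) (φ (i + 1) (x + 1)) x := by
          have := HasDerivAt.comp_add_const x 1 a1
          simpa using this
        exact a3.sub a2)
    have hn0 : lo ≤ ξ := by linarith
    obtain ⟨ζ, hζ, hζ2⟩ := exists_hasDerivAt_eq_slope (φ k) (φ (k + 1)) (show ξ < ξ + 1 by linarith)
      (fun x hx => (hd k x (by linarith [hx.1]) (by linarith [hx.2])).continuousAt.continuousWithinAt)
      (fun x hx => hd k x (by linarith [hx.1]) (by linarith [hx.2]))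
    refine ⟨ζ, by linarith [hζ.1], by push_cast; linarith [hζ.2], ?_⟩
    have e1 : dd (k + 1) (fun m : ℕ => φ 0 m) n
        = dd k (fun m : ℕ => φ 0 ((m : ℝ) + 1) - φ 0 m) n := by
      show dd k (fun m : ℕ => φ 0 ((m + 1 : ℕ) : ℝ) - φ 0 m) n = _
      push_cast
      rfl
    rw [e1, g3, hζ2]
    have : ξ + 1 - ξ = 1 := by ring
    rw [this, div_one]

/-- a family of functions, each the derivative of the previous one, which from `k0` on are
`s (-1)^k c_k x^(θ-k)` with `c_k > 0` -/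
structure Fam (θ : ℝ) (k0 : ℕ) (s : ℝ) (c : ℕ → ℝ) (f : ℕ → ℝ → ℝ) : Prop where
  hs : s = 1 ∨ s = -1
  hθ : θ ≤ k0
  hc : ∀ k, k0 ≤ k → 0 < c k
  der : ∀ i x, 0 < x → HasDerivAt (f i) (f (i + 1) x) x
  val : ∀ k, k0 ≤ k → ∀ x, 0 < x → f k x = s * (-1) ^ k * c k * x ^ (θ - k)

theorem sgn_mul {s : ℝ} (hs : s = 1 ∨ s = -1) : s * s = 1 := by
  rcases hs with h | h <;> rw [h] <;> norm_num

/-- the condition of the derivative tests for the reversed phase -/
theorem cond_rev {θ : ℝ} {k0 : ℕ} {s : ℝ} {c : ℕ → ℝ} {f : ℕ → ℝ → ℝ} (hf : Fam θ k0 s c f)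
    (k : ℕ) (hk : k0 ≤ k) (P M : ℕ) (hP : 1 ≤ P) (hM : M ≤ P) (F : ℝ) (hF : 0 < F) :
    Cond k (fun m : ℕ => s * F * f 0 ((P : ℝ) + M - m)) M (F * c k * (2 * P : ℝ) ^ (θ - k))
      ((2 : ℝ) ^ ((k : ℝ) - θ)) := by
  have hP0 : (0 : ℝ) < P := by exact_mod_cast hP
  have hMP : (M : ℝ) ≤ P := by exact_mod_cast hM
  have key : ∀ j, k0 ≤ j → ∀ n : ℕ, n + j < M → ∃ x : ℝ, (P : ℝ) ≤ x ∧ x ≤ 2 * P ∧
      dd j (fun m : ℕ => s * F * f 0 ((P : ℝ) + M - m)) n = F * c j * x ^ (θ - j) := by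
    intro j hj n hn
    have hnM : (n : ℝ) + j ≤ M := by exact_mod_cast hn.le
    obtain ⟨ξ, h1, h2, h3⟩ := dd_mvt j
      (fun i x => s * F * ((-1) ^ i * f i ((P : ℝ) + M - x))) 0 M n (by positivity) hnM
      (fun i x hx0 hx1 => by
        have hx : 0 < (P : ℝ) + M - x := by linarith
        have a1 := hf.der i _ hx
        have a2 : HasDerivAt (fun y : ℝ => (P : ℝ) + M - y) (-1) x := by
          simpa using (hasDerivAt_id x).const_sub ((P : ℝ) + M)
        have a3 := a1.comp x a2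
        have a4 := (a3.const_mul ((-1 : ℝ) ^ i)).const_mul (s * F)
        exact a4.congr_deriv (by rw [pow_succ]; ring))
    have hx0 : 0 < (P : ℝ) + M - ξ := by linarith
    refine ⟨(P : ℝ) + M - ξ, by linarith, ?_, ?_⟩
    · have : (0 : ℝ) ≤ n := by positivity
      linarith
    · have e1 : (fun m : ℕ => s * F * f 0 ((P : ℝ) + M - m)) =
          fun m : ℕ => s * F * ((-1) ^ 0 * f 0 ((P : ℝ) + M - m)) := by
        funext m; simp
      rw [e1, h3, hf.val j hj _ hx0]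
      have e2 : ((-1 : ℝ) ^ j) * ((-1) ^ j) = 1 := by
        rw [← mul_pow]; norm_num
      calc s * F * ((-1) ^ j * (s * (-1) ^ j * c j * ((P : ℝ) + M - ξ) ^ (θ - j)))
          = (s * s) * ((-1 : ℝ) ^ j * (-1) ^ j) * (F * c j * ((P : ℝ) + M - ξ) ^ (θ - j)) := by ring
        _ = _ := by rw [sgn_mul hf.hs, e2, one_mul, one_mul]
  constructor
  · intro n hn
    obtain ⟨x, hx1, hx2, hx3⟩ := key k hk n hn
    have hx0 : 0 < x := by linarith
    have hθk : θ - k ≤ 0 := by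
      have : (k0 : ℝ) ≤ k := by exact_mod_cast hk
      linarith [hf.hθ]
    have hck := hf.hc k hk
    rw [hx3]
    constructor
    · apply mul_le_mul_of_nonneg_left _ (by positivity)
      exact Real.rpow_le_rpow_of_nonpos hx0 hx2 hθk
    · have e1 : (2 : ℝ) ^ ((k : ℝ) - θ) * (F * c k * (2 * P : ℝ) ^ (θ - k))
          = F * c k * (P : ℝ) ^ (θ - k) := by
        rw [Real.mul_rpow (by norm_num) hP0.le]
        have : (2 : ℝ) ^ ((k : ℝ) - θ) * (2 : ℝ) ^ (θ - k) = 1 := by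
          rw [← Real.rpow_add (by norm_num)]
          rw [show (k : ℝ) - θ + (θ - k) = 0 by ring, Real.rpow_zero]
        calc (2 : ℝ) ^ ((k : ℝ) - θ) * (F * c k * ((2 : ℝ) ^ (θ - k) * (P : ℝ) ^ (θ - k)))
            = ((2 : ℝ) ^ ((k : ℝ) - θ) * (2 : ℝ) ^ (θ - k)) * (F * c k * (P : ℝ) ^ (θ - k)) := by ring
          _ = _ := by rw [this, one_mul]
      rw [e1]
      apply mul_le_mul_of_nonneg_left _ (by positivity)
      exact Real.rpow_le_rpow_of_nonpos hP0 hx1 hθk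
  · intro n hn
    obtain ⟨x, hx1, hx2, hx3⟩ := key (k + 1) (by omega) n hn
    have hx0 : 0 < x := by linarith
    have hck := hf.hc (k + 1) (by omega)
    rw [hx3]
    positivity

/-- the derivative tests of the orders `k ≤ K`, with common constants -/
theorem unif (θ η : ℝ) (hη : 0 < η) (hη1 : η < 1) (K : ℕ) :
    ∃ σ : ℝ, 0 < σ ∧ ∃ C : ℝ, 1 ≤ C ∧ ∀ k : ℕ, 2 ≤ k → θ ≤ k → k ≤ K →
    ∀ (N M : ℕ) (g : ℕ → ℝ) (lam : ℝ), 1 ≤ N → M ≤ N →
      Cond k g M lam ((2 : ℝ) ^ ((k : ℝ) - θ)) → (N : ℝ) ^ (-2 + η) ≤ lam →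
      lam ≤ (N : ℝ) ^ (-η) →
      ‖∑ n ∈ range M, ee (g n)‖ ≤ C * (N : ℝ) ^ (1 - σ) := by
  induction K with
  | zero =>
    refine ⟨1, one_pos, 1, le_rfl, ?_⟩
    intro k h1 _ h2
    omega
  | succ K ih =>
    obtain ⟨σ1, hσ1, C1, hC1, h1⟩ := ih
    by_cases hK : 2 ≤ K + 1 ∧ θ ≤ ((K + 1 : ℕ) : ℝ)
    · obtain ⟨σ2, hσ2, C2, hC2, h2⟩ := vdc (K + 1) hK.1 ((2 : ℝ) ^ (((K + 1 : ℕ) : ℝ) - θ))
        (Real.one_le_rpow (by norm_num) (by linarith [hK.2])) η hη hη1
      refine ⟨min σ1 σ2, lt_min hσ1 hσ2, max C1 C2, le_trans hC1 (le_max_left _ _), ?_⟩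
      intro k hk hkθ hkK N M g lam hN hM hc hl1 hl2
      have hN' : (1 : ℝ) ≤ N := by exact_mod_cast hN
      have hpos : ∀ s : ℝ, 0 ≤ (N : ℝ) ^ s := fun s => Real.rpow_nonneg (by linarith) s
      rcases Nat.lt_or_ge k (K + 1) with hlt | hge
      · refine (h1 k hk hkθ (by omega) N M g lam hN hM hc hl1 hl2).trans ?_
        refine mul_le_mul (le_max_left _ _) ?_ (hpos _) (by linarith [le_max_left C1 C2])
        exact Real.rpow_le_rpow_of_exponent_le hN' (by linarith [min_le_left σ1 σ2])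
      · have hke : k = K + 1 := by omega
        subst hke
        refine (h2 N M g lam hN hM hc hl1 hl2).trans ?_
        refine mul_le_mul (le_max_right _ _) ?_ (hpos _) (by linarith [le_max_left C1 C2])
        exact Real.rpow_le_rpow_of_exponent_le hN' (by linarith [min_le_right σ1 σ2])
    · refine ⟨σ1, hσ1, C1, hC1, ?_⟩
      intro k hk hkθ hkK
      rcases Nat.lt_or_ge k (K + 1) with hlt | hge
      · exact h1 k hk hkθ (by omega)
      · have hke : k = K + 1 := by omega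
        subst hke
        exact absurd ⟨hk, hkθ⟩ hK

theorem ee_neg (x : ℝ) : ee (-x) = (starRingEnd ℂ) (ee x) := by
  have h := ee_mul_conj 0 x
  have h0 : ee 0 = 1 := by unfold ee; simp
  rw [h0, one_mul, zero_sub] at h
  exact h.symm

theorem norm_sum_neg (M : ℕ) (g : ℕ → ℝ) :
    ‖∑ n ∈ range M, ee (-(g n))‖ = ‖∑ n ∈ range M, ee (g n)‖ := by
  simp only [ee_neg]
  rw [← map_sum, RCLike.norm_conj]

/-- **Exponential sums.** Power saving for `∑ e(F f(n))` over `P < n ≤ P + M`, `M ≤ P`,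
uniformly for `P ^ (k1 - 2 - θ + η) ≤ |F| ≤ P ^ A`, `k1 = max 2 k0`. -/
theorem expsum {θ : ℝ} {k0 : ℕ} {s : ℝ} {c : ℕ → ℝ} {f : ℕ → ℝ → ℝ} (hf : Fam θ k0 s c f)
    (η A : ℝ) (hη : 0 < η) (hη1 : η ≤ 1 / 2) :
    ∃ σ : ℝ, 0 < σ ∧ ∃ C : ℝ, 1 ≤ C ∧ ∀ (P M : ℕ) (F : ℝ), 1 ≤ P → M ≤ P →
      (P : ℝ) ^ (((max 2 k0 : ℕ) : ℝ) - 2 - θ + η) ≤ |F| → |F| ≤ (P : ℝ) ^ A →
      ‖∑ n ∈ range M, ee (F * f 0 ((P : ℝ) + 1 + n))‖ ≤ C * (P : ℝ) ^ (1 - σ) := by
  set k1 : ℕ := max 2 k0 with hk1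
  have hk12 : 2 ≤ k1 := le_max_left _ _
  have hk10 : k0 ≤ k1 := le_max_right _ _
  have hθ1 : θ ≤ k1 := by
    have : (k0 : ℝ) ≤ k1 := by exact_mod_cast hk10
    linarith [hf.hθ]
  -- the orders used
  obtain ⟨K, hK⟩ : ∃ K : ℕ, k1 ≤ K ∧ A + θ + 1 ≤ (K : ℝ) := by
    obtain ⟨n, hn⟩ := exists_nat_ge (A + θ + 1)
    exact ⟨max k1 n, le_max_left _ _, hn.trans (by exact_mod_cast le_max_right _ _)⟩
  obtain ⟨σ, hσ, C, hC, hvdc⟩ := unif θ (η / 2) (by positivity) (by linarith) K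
  -- constants `c_k 2^(θ-k)` are between `P ^ (-η/2)` and `P ^ (η/2)` for large `P`
  have hcst : ∀ k : ℕ, ∃ P0 : ℕ, ∀ P : ℕ, P0 ≤ P → k0 ≤ k →
      (P : ℝ) ^ (-(η / 2)) ≤ c k * (2 : ℝ) ^ (θ - k) ∧ c k * (2 : ℝ) ^ (θ - k) ≤ (P : ℝ) ^ (η / 2) := by
    intro k
    by_cases hk : k0 ≤ k
    · have hpos : 0 < c k * (2 : ℝ) ^ (θ - k) := mul_pos (hf.hc k hk) (by positivity)
      have t1 : Filter.Tendsto (fun P : ℕ => (P : ℝ) ^ (-(η / 2))) Filter.atTop (nhds 0) :=
        (tendsto_rpow_neg_atTop (by positivity)).comp tendsto_natCast_atTop_atTop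
      have t2 : Filter.Tendsto (fun P : ℕ => (P : ℝ) ^ (η / 2)) Filter.atTop Filter.atTop :=
        (tendsto_rpow_atTop (by positivity)).comp tendsto_natCast_atTop_atTop
      obtain ⟨P0, hP0⟩ := Filter.eventually_atTop.1
        ((t1.eventually (ge_mem_nhds hpos)).and (t2.eventually_ge_atTop (c k * (2 : ℝ) ^ (θ - k))))
      exact ⟨P0, fun P hP _ => hP0 P hP⟩
    · exact ⟨0, fun _ _ h => absurd h hk⟩
  choose P0 hP0 using hcst
  set Q : ℕ := (range (K + 1)).sup P0 with hQ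
  refine ⟨min σ 1, lt_min hσ one_pos, C + Q, by
    have : (0 : ℝ) ≤ Q := by positivity
    linarith, ?_⟩
  intro P M F hP hM hF1 hF2
  have hP1 : (1 : ℝ) ≤ P := by exact_mod_cast hP
  have hPpos : (0 : ℝ) < P := by linarith
  have hpow1 : (1 : ℝ) ≤ (P : ℝ) ^ (1 - min σ 1) :=
    Real.one_le_rpow hP1 (by linarith [min_le_right σ 1])
  rcases lt_or_ge P Q with hsmall | hlarge
  · -- trivial bound
    have h1 := triv_bound M (fun n : ℕ => F * f 0 ((P : ℝ) + 1 + n))
    have h2 : (M : ℝ) ≤ Q := by exact_mod_cast (by omega : M ≤ Q)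
    have hQ0 : (0 : ℝ) ≤ Q := by positivity
    calc _ ≤ (M : ℝ) := h1
      _ ≤ (Q : ℝ) * 1 := by linarith
      _ ≤ (C + Q) * (P : ℝ) ^ (1 - min σ 1) :=
        mul_le_mul (by linarith) hpow1 (by norm_num) (by linarith)
  · have hFpos : 0 < |F| := lt_of_lt_of_le (Real.rpow_pos_of_pos hPpos _) hF1
    -- the choice of `k`
    have hex : ∃ k : ℕ, k1 ≤ k ∧ |F| * (P : ℝ) ^ (θ - k) ≤ (P : ℝ) ^ (-η) := by
      refine ⟨K, hK.1, ?_⟩
      calc |F| * (P : ℝ) ^ (θ - K) ≤ (P : ℝ) ^ A * (P : ℝ) ^ (θ - K) :=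
            mul_le_mul_of_nonneg_right hF2 (Real.rpow_nonneg hPpos.le _)
        _ = (P : ℝ) ^ (A + (θ - K)) := (Real.rpow_add hPpos _ _).symm
        _ ≤ _ := Real.rpow_le_rpow_of_exponent_le hP1 (by linarith [hK.2])
    classical
    set k := Nat.find hex with hkdef
    obtain ⟨hk1', hkle⟩ := Nat.find_spec hex
    have hkK : k ≤ K := by
      apply Nat.find_min' hex
      refine ⟨hK.1, ?_⟩
      calc |F| * (P : ℝ) ^ (θ - K) ≤ (P : ℝ) ^ A * (P : ℝ) ^ (θ - K) :=
            mul_le_mul_of_nonneg_right hF2 (Real.rpow_nonneg hPpos.le _)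
        _ = (P : ℝ) ^ (A + (θ - K)) := (Real.rpow_add hPpos _ _).symm
        _ ≤ _ := Real.rpow_le_rpow_of_exponent_le hP1 (by linarith [hK.2])
    have hlow : (P : ℝ) ^ (-2 + η) ≤ |F| * (P : ℝ) ^ (θ - k) := by
      rcases Nat.eq_or_lt_of_le hk1' with he | hlt
      · rw [← hkdef] at he
        rw [← he]
        calc (P : ℝ) ^ (-2 + η) = (P : ℝ) ^ ((k1 : ℝ) - 2 - θ + η) * (P : ℝ) ^ (θ - k1) := by
              rw [← Real.rpow_add hPpos]; congr 1; ring
          _ ≤ _ := mul_le_mul_of_nonneg_right hF1 (Real.rpow_nonneg hPpos.le _)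
      · have hmin := Nat.find_min hex (m := k - 1) (by omega)
        push Not at hmin
        have h3 := hmin (by omega)
        have e1 : (P : ℝ) ^ (θ - (k - 1 : ℕ)) = (P : ℝ) ^ (θ - k) * P := by
          rw [Nat.cast_sub (by omega), Nat.cast_one]
          nth_rewrite 3 [← Real.rpow_one (P : ℝ)]
          rw [← Real.rpow_add hPpos]
          congr 1
          ring
        rw [e1] at h3
        have h4 : (P : ℝ) ^ (-η) * (P : ℝ) ^ (-1 : ℝ) ≤ |F| * (P : ℝ) ^ (θ - k) := by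
          have e2 : (P : ℝ) ^ (-1 : ℝ) = (P : ℝ)⁻¹ := by rw [Real.rpow_neg_one]
          rw [e2, ← div_eq_mul_inv, div_le_iff₀ hPpos]
          linarith
        refine le_trans ?_ h4
        rw [← Real.rpow_add hPpos]
        exact Real.rpow_le_rpow_of_exponent_le hP1 (by linarith)
    have hk0 : k0 ≤ k := hk10.trans hk1'
    have hPk : P0 k ≤ P := (Finset.le_sup (f := P0) (mem_range.2 (by omega : k < K + 1))).trans hlarge
    obtain ⟨hc1, hc2⟩ := hP0 k P hPk hk0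
    have hck := hf.hc k hk0
    set lam := |F| * c k * (2 * P : ℝ) ^ (θ - k) with hlam
    have elam : lam = (|F| * (P : ℝ) ^ (θ - k)) * (c k * (2 : ℝ) ^ (θ - k)) := by
      rw [hlam, Real.mul_rpow (by norm_num) hPpos.le]; ring
    have hl1 : (P : ℝ) ^ (-2 + η / 2) ≤ lam := by
      rw [elam]
      calc (P : ℝ) ^ (-2 + η / 2) = (P : ℝ) ^ (-2 + η) * (P : ℝ) ^ (-(η / 2)) := by
            rw [← Real.rpow_add hPpos]; congr 1; ring
        _ ≤ _ := mul_le_mul hlow hc1 (Real.rpow_nonneg hPpos.le _) (by positivity)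
    have hl2 : lam ≤ (P : ℝ) ^ (-(η / 2)) := by
      rw [elam]
      calc _ ≤ (P : ℝ) ^ (-η) * (P : ℝ) ^ (η / 2) :=
            mul_le_mul hkle hc2 (by positivity) (Real.rpow_nonneg hPpos.le _)
        _ = _ := by rw [← Real.rpow_add hPpos]; congr 1; ring
    have hcond := cond_rev hf k hk0 P M hP hM |F| hFpos
    have hkθ : θ ≤ k := by
      have : (k0 : ℝ) ≤ k := by exact_mod_cast hk0
      linarith [hf.hθ]
    have hmain := hvdc k (hk12.trans hk1') hkθ hkK P M _ lam hP hM hcond hl1 hl2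
    -- reversal
    have hrev : ‖∑ n ∈ range M, ee (F * f 0 ((P : ℝ) + 1 + n))‖
        = ‖∑ m ∈ range M, ee (s * |F| * f 0 ((P : ℝ) + M - m))‖ := by
      have e1 : ∑ n ∈ range M, ee (F * f 0 ((P : ℝ) + 1 + n))
          = ∑ m ∈ range M, ee (F * f 0 ((P : ℝ) + M - m)) := by
        rw [← Finset.sum_range_reflect]
        apply Finset.sum_congr rfl
        intro m hm
        rw [mem_range] at hm
        have : ((M - 1 - m : ℕ) : ℝ) = (M : ℝ) - 1 - m := by
          rw [Nat.cast_sub (by omega), Nat.cast_sub (by omega)]; push_cast; ring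
        rw [this]
        congr 3
        ring
      rw [e1]
      have hcase : F = s * |F| ∨ F = -(s * |F|) := by
        rcases hf.hs with h | h <;> rcases abs_cases F with ⟨h1, _⟩ | ⟨h1, _⟩ <;>
          rw [h, h1] <;> simp
      rcases hcase with h | h
      · rw [← h]
      · have : ∀ m : ℕ, F * f 0 ((P : ℝ) + M - m) = -(s * |F| * f 0 ((P : ℝ) + M - m)) := by
          intro m
          nth_rewrite 1 [h]
          ring
        simp only [this]
        exact norm_sum_neg M _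
    rw [hrev]
    refine hmain.trans ?_
    refine mul_le_mul ?_ ?_ (Real.rpow_nonneg hPpos.le _) (by positivity)
    · have : (0 : ℝ) ≤ Q := by positivity
      linarith
    · exact Real.rpow_le_rpow_of_exponent_le hP1 (by linarith [min_le_left σ 1])

/-- the coefficients `θ (θ - 1) ⋯ (θ - k + 1)` -/
noncomputable def fall (θ : ℝ) (k : ℕ) : ℝ := ∏ i ∈ range k, (θ - i)

/-- powers -/
theorem fam_pow (θ : ℝ) (hθ : ∀ n : ℕ, θ ≠ n) :
    Fam θ ⌈θ⌉₊ ((-1) ^ ⌈θ⌉₊) (fun k => |fall θ k|) (fun k x => fall θ k * x ^ (θ - k)) := by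
  have hne : ∀ k, fall θ k ≠ 0 := by
    intro k
    unfold fall
    rw [Finset.prod_ne_zero_iff]
    intro i _
    exact sub_ne_zero.2 (hθ i)
  refine ⟨?_, Nat.le_ceil θ, fun k _ => abs_pos.2 (hne k), ?_, ?_⟩
  · exact neg_one_pow_eq_or ℝ _
  · intro i x hx
    have h1 := (Real.hasDerivAt_rpow_const (x := x) (p := θ - i) (Or.inl hx.ne')).const_mul (fall θ i)
    refine h1.congr_deriv ?_
    have : θ - ((i + 1 : ℕ) : ℝ) = θ - i - 1 := by push_cast; ring
    rw [this]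
    unfold fall
    rw [Finset.prod_range_succ]
    ring
  · intro k hk x _
    have key : fall θ k = (-1) ^ ⌈θ⌉₊ * (-1) ^ k * |fall θ k| := by
      have hsig : ∀ k, ⌈θ⌉₊ ≤ k → 0 < (-1 : ℝ) ^ ⌈θ⌉₊ * (-1) ^ k * fall θ k := by
        intro k hk
        induction k, hk using Nat.le_induction with
        | base =>
          rw [← mul_pow, neg_mul_neg, one_mul, one_pow, one_mul]
          unfold fall
          apply Finset.prod_pos
          intro i hi
          rw [mem_range, Nat.lt_ceil] at hi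
          linarith
        | succ k hk ih =>
          have h1 : θ < k := by
            have := (Nat.ceil_le.1 hk)
            exact lt_of_le_of_ne this (hθ k)
          have e1 : (-1 : ℝ) ^ ⌈θ⌉₊ * (-1) ^ (k + 1) * fall θ (k + 1)
              = ((-1 : ℝ) ^ ⌈θ⌉₊ * (-1) ^ k * fall θ k) * (k - θ) := by
            unfold fall
            rw [Finset.prod_range_succ, pow_succ]
            ring
          rw [e1]
          exact mul_pos ih (by linarith)
      have h1 := hsig k hk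
      have h2 : (-1 : ℝ) ^ ⌈θ⌉₊ * (-1) ^ k = 1 ∨ (-1 : ℝ) ^ ⌈θ⌉₊ * (-1) ^ k = -1 := by
        rw [← pow_add]
        exact neg_one_pow_eq_or ℝ _
      rcases h2 with h2 | h2
      · rw [h2, one_mul] at h1
        rw [h2, abs_of_pos h1, one_mul]
      · rw [h2] at h1
        rw [h2, abs_of_neg (by linarith)]
        ring
    show fall θ k * x ^ (θ - k) = _
    nth_rewrite 1 [key]
    rfl

/-- logarithms -/
theorem fam_log : Fam 0 1 (-1) (fun k => ((k - 1).factorial : ℝ))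
    (fun k x => if k = 0 then Real.log x else -1 * (-1) ^ k * ((k - 1).factorial : ℝ) * x ^ ((0 : ℝ) - k)) := by
  refine ⟨Or.inr rfl, by norm_num, fun k _ => by positivity, ?_, ?_⟩
  · intro i x hx
    rcases Nat.eq_zero_or_pos i with rfl | hi
    · simp only [if_true, zero_add, one_ne_zero, if_false]
      have h1 := Real.hasDerivAt_log hx.ne'
      convert h1 using 1
      rw [zero_sub, Nat.cast_one, Real.rpow_neg_one]
      simp
    · have hi0 : i ≠ 0 := by omega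
      simp only [hi0, if_false, Nat.add_eq_zero_iff, one_ne_zero, and_false, Nat.add_sub_cancel]
      have h1 := (Real.hasDerivAt_rpow_const (x := x) (p := (0 : ℝ) - i) (Or.inl hx.ne')).const_mul
        (-1 * (-1) ^ i * ((i - 1).factorial : ℝ))
      refine h1.congr_deriv ?_
      have e1 : (0 : ℝ) - ((i + 1 : ℕ) : ℝ) = 0 - i - 1 := by push_cast; ring
      rw [e1]
      obtain ⟨j, rfl⟩ : ∃ j, i = j + 1 := ⟨i - 1, by omega⟩
      rw [Nat.add_sub_cancel, Nat.factorial_succ]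
      push_cast
      rw [pow_succ]
      ring
  · intro k hk x _
    have : k ≠ 0 := by omega
    simp only [this, if_false]

end Pool.Agent.TH373.DR
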