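import Pool.Agent.TH373.DR.Core

set_option autoImplicit false

/-!
From the words of length `κ log X` to all windows of length `≥ δ log X`.
-/

namespace Pool.Agent.TH373.DR

open Finset Pool.Agent.Helper153.Vdc Pool.Agent.W226.MP

/-- number of `j < L` such that the word `w` occurs in `x` right after the place `i + j` -/
noncomputable def oc (b k : ℕ) (w : Fin k → Fin b) (x : ℝ) (i L : ℕ) : ℕ :=
  open Classical in ((range L).filter (fun j =>
    ∀ s : Fin k, ⌊x * (b : ℝ) ^ (i + j + s + 1)⌋ % (b : ℤ) = ((w s : ℕ) : ℤ))).card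

theorem oc_add (b k : ℕ) (w : Fin k → Fin b) (x : ℝ) (i L M : ℕ) :
    oc b k w x i (L + M) = oc b k w x i L + oc b k w x (i + L) M := by
  classical
  unfold oc
  rw [card_filter, card_filter, card_filter, sum_range_add]
  congr 1
  apply sum_congr rfl
  intro j _
  rw [← add_assoc i L j]

theorem oc_le (b k : ℕ) (w : Fin k → Fin b) (x : ℝ) (i L : ℕ) : oc b k w x i L ≤ L := by
  classical
  unfold oc
  exact (card_filter_le _ _).trans (by rw [card_range])

/-- the deviation -/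
noncomputable def dv (b k : ℕ) (w : Fin k → Fin b) (x : ℝ) (i L : ℕ) : ℝ :=
  |(oc b k w x i L : ℝ) - L / (b : ℝ) ^ k|

theorem dv_add (b k : ℕ) (w : Fin k → Fin b) (x : ℝ) (i L M : ℕ) :
    dv b k w x i (L + M) ≤ dv b k w x i L + dv b k w x (i + L) M := by
  unfold dv
  rw [oc_add]
  push_cast
  have : ((oc b k w x i L : ℝ) + oc b k w x (i + L) M) - (L + M) / (b : ℝ) ^ k =
      ((oc b k w x i L : ℝ) - L / (b : ℝ) ^ k) + ((oc b k w x (i + L) M : ℝ) - M / (b : ℝ) ^ k) := by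
    ring
  rw [this]
  exact abs_add_le _ _

theorem dv_triv (b k : ℕ) (hb : 1 ≤ b) (w : Fin k → Fin b) (x : ℝ) (i L : ℕ) :
    dv b k w x i L ≤ L := by
  unfold dv
  have h1 : (oc b k w x i L : ℝ) ≤ L := by exact_mod_cast oc_le b k w x i L
  have h2 : (1 : ℝ) ≤ (b : ℝ) ^ k := one_le_pow₀ (by exact_mod_cast hb)
  have h3 : (L : ℝ) / (b : ℝ) ^ k ≤ L := div_le_self (by positivity) h2
  have h4 : (0 : ℝ) ≤ (L : ℝ) / (b : ℝ) ^ k := by positivity
  have h5 : (0 : ℝ) ≤ oc b k w x i L := by positivity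
  rw [abs_le]
  constructor <;> linarith

theorem dv_block (b k : ℕ) (hb : 2 ≤ b) (hk : 1 ≤ k) (w : Fin k → Fin b) (x : ℝ) (i t : ℕ)
    (ε : ℝ) (hε : 0 ≤ ε) (h : ¬ BadAt b k t ε x i) :
    dv b k w x i (k * t) ≤ ε * (k * t : ℕ) + k := by
  classical
  set w' : ℕ → ℕ := fun s => if hs : s < k then (w ⟨s, hs⟩ : ℕ) else 0 with hw'
  have hw'b : ∀ s, w' s < b := by
    intro s
    simp only [hw']
    split_ifs with hs
    · exact (w ⟨s, hs⟩).2
    · omega
  have ediv : k * t / k = t := Nat.mul_div_cancel_left t (by omega)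
  have hval : val b w' k < b ^ k := val_lt b w' hw'b k
  have hcc := count_close b k hb hk w' hw'b x i (k * t) ε hε (by
    intro r hr
    rw [ediv]
    by_contra hcon
    push Not at hcon
    apply h
    refine ⟨r, hr, val b w' k, hval, ?_⟩
    unfold Zb
    rw [mem_filter, mem_range]
    constructor
    · have h0 : 0 ≤ Int.fract (x * (b : ℝ) ^ (i + r)) := Int.fract_nonneg _
      have h1 : Int.fract (x * (b : ℝ) ^ (i + r)) < 1 := Int.fract_lt_one _
      have hpos : (0 : ℝ) < (((b ^ k) ^ t : ℕ) : ℝ) := by positivity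
      rw [Nat.floor_lt (by positivity)]
      calc Int.fract (x * (b : ℝ) ^ (i + r)) * (((b ^ k) ^ t : ℕ) : ℝ) <
            1 * (((b ^ k) ^ t : ℕ) : ℝ) := mul_lt_mul_of_pos_right h1 hpos
        _ = _ := one_mul _
    · have e : (((b ^ k) ^ t : ℕ) : ℝ) = ((b ^ k : ℕ) : ℝ) ^ t := by push_cast; rfl
      rw [e]
      exact hcon)
  unfold dv
  have e : oc b k w x i (k * t) = ((range (k * t)).filter (fun j =>
        ∀ s < k, ⌊x * (b : ℝ) ^ (i + j + s + 1)⌋ % (b : ℤ) = w' s)).card := by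
    unfold oc
    congr 1
    apply filter_congr
    intro j _
    constructor
    · intro hh s hs
      have := hh ⟨s, hs⟩
      simp only [hw', hs, dif_pos]
      exact this
    · intro hh s
      have := hh s s.2
      simp only [hw', s.2, dif_pos] at this
      exact this
  rw [e]
  exact hcc

theorem dv_blocks (b k : ℕ) (hb : 2 ≤ b) (hk : 1 ≤ k) (w : Fin k → Fin b) (x : ℝ) (t : ℕ)
    (ε : ℝ) (hε : 0 ≤ ε) (lo : ℕ) (hi : ℕ) (h : ∀ i : ℕ, lo ≤ i → i ≤ hi → ¬ BadAt b k t ε x i) :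
    ∀ q i r : ℕ, lo ≤ i → i + k * t * q + r ≤ hi →
      dv b k w x i (k * t * q + r) ≤ (ε * (k * t : ℕ) + k) * q + r := by
  intro q
  induction q with
  | zero =>
    intro i r _ _
    have := dv_triv b k (by omega) w x i (k * t * 0 + r)
    simpa using this
  | succ q ih =>
    intro i r h1 h2
    have e : k * t * (q + 1) + r = k * t + (k * t * q + r) := by ring
    rw [e]
    refine (dv_add b k w x i (k * t) _).trans ?_
    have g1 := dv_block b k hb hk w x i t ε hε (h i h1 (by omega))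
    have g2 := ih (i + k * t) r (by omega) (by
      have : i + k * t + k * t * q + r = i + k * t * (q + 1) + r := by ring
      omega)
    push_cast at g1 g2 ⊢
    linarith

/-- **All windows.** -/
theorem windows (b k : ℕ) (hb : 2 ≤ b) (hk : 1 ≤ k) (x : ℝ) (t : ℕ) (ht : 1 ≤ t)
    (ε : ℝ) (hε : 0 ≤ ε) (lo hi : ℕ) (h : ∀ i : ℕ, lo ≤ i → i ≤ hi → ¬ BadAt b k t ε x i)
    (w : Fin k → Fin b) (i L : ℕ) (hL : i + L ≤ hi) :
    dv b k w x i L ≤ lo + k * t + (ε + 1 / t) * L := by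
  have htR : (1 : ℝ) ≤ t := by exact_mod_cast ht
  have hkR : (1 : ℝ) ≤ k := by exact_mod_cast hk
  have hkt : 0 < k * t := Nat.mul_pos (by omega) (by omega)
  -- after the place `lo`
  have key : ∀ i L : ℕ, lo ≤ i → i + L ≤ hi → dv b k w x i L ≤ k * t + (ε + 1 / t) * L := by
    intro i L hi1 hi2
    have hL := Nat.div_add_mod L (k * t)
    have hr := Nat.mod_lt L hkt
    have h1 := dv_blocks b k hb hk w x t ε hε lo hi h (L / (k * t)) i (L % (k * t)) hi1 (by omega)
    rw [hL] at h1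
    refine h1.trans ?_
    have h2 : ((L % (k * t) : ℕ) : ℝ) ≤ k * t := by exact_mod_cast hr.le
    have h3 : ((k * t : ℕ) : ℝ) * ((L / (k * t) : ℕ) : ℝ) ≤ L := by
      exact_mod_cast Nat.mul_div_le L (k * t)
    have h4 : (k : ℝ) * ((L / (k * t) : ℕ) : ℝ) ≤ 1 / t * L := by
      rw [div_mul_eq_mul_div, one_mul, le_div_iff₀ (by linarith)]
      push_cast at h3
      linarith
    push_cast at h3 ⊢
    nlinarith
  rcases le_or_gt lo i with hle | hgt
  · have := key i L hle hL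
    have h0 : (0 : ℝ) ≤ lo := by positivity
    linarith
  · rcases le_or_gt L (lo - i) with hs | hs
    · have h1 := dv_triv b k (by omega) w x i L
      have h2 : (L : ℝ) ≤ lo := by exact_mod_cast (by omega : L ≤ lo)
      have h3 : 0 ≤ (ε + 1 / (t : ℝ)) * L := by positivity
      have h4 : (0 : ℝ) ≤ (k : ℝ) * t := by positivity
      linarith
    · obtain ⟨M, rfl⟩ : ∃ M, L = (lo - i) + M := ⟨L - (lo - i), by omega⟩
      have h1 := dv_add b k w x i (lo - i) M
      have h2 := dv_triv b k (by omega) w x i (lo - i)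
      have h3 := key (i + (lo - i)) M (by omega) (by omega)
      have h4 : ((lo - i : ℕ) : ℝ) ≤ lo := by exact_mod_cast (by omega : lo - i ≤ lo)
      have h5 : (ε + 1 / (t : ℝ)) * M ≤ (ε + 1 / t) * ((lo - i + M : ℕ) : ℝ) := by
        apply mul_le_mul_of_nonneg_left _ (by positivity)
        exact_mod_cast (by omega : M ≤ lo - i + M)
      linarith

/-- sets of integers with a power saving -/
def Small (p : ℕ → ℕ → Prop) : Prop :=
  ∃ c : ℝ, 0 < c ∧ ∃ X0 : ℕ, ∀ X : ℕ, X0 ≤ X → ∀ S : Finset ℕ, (∀ n ∈ S, 1 ≤ n ∧ n ≤ X ∧ p X n) →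
    (S.card : ℝ) ≤ (X : ℝ) ^ (1 - c)

theorem Small.or {p q : ℕ → ℕ → Prop} (hp : Small p) (hq : Small q) :
    Small (fun X n => p X n ∨ q X n) := by
  classical
  obtain ⟨c1, hc1, X1, h1⟩ := hp
  obtain ⟨c2, hc2, X2, h2⟩ := hq
  obtain ⟨X3, h3⟩ := large (1 - min c1 c2) (1 - min c1 c2 / 2)
    (by have : 0 < min c1 c2 := lt_min hc1 hc2; linarith) 2
  refine ⟨min c1 c2 / 2, by have : 0 < min c1 c2 := lt_min hc1 hc2; positivity,
    max (max X1 X2) (max X3 1), fun X hX S hS => ?_⟩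
  simp only [max_le_iff] at hX
  obtain ⟨⟨g1, g2⟩, g3, g4⟩ := hX
  have hX1 : (1 : ℝ) ≤ X := by exact_mod_cast g4
  have e : S ⊆ S.filter (fun n => p X n) ∪ S.filter (fun n => q X n) := by
    intro n hn
    rw [mem_union, mem_filter, mem_filter]
    rcases (hS n hn).2.2 with h | h
    · exact Or.inl ⟨hn, h⟩
    · exact Or.inr ⟨hn, h⟩
  have a1 := h1 X g1 (S.filter (fun n => p X n)) (fun n hn => by
    rw [mem_filter] at hn; exact ⟨(hS n hn.1).1, (hS n hn.1).2.1, hn.2⟩)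
  have a2 := h2 X g2 (S.filter (fun n => q X n)) (fun n hn => by
    rw [mem_filter] at hn; exact ⟨(hS n hn.1).1, (hS n hn.1).2.1, hn.2⟩)
  have a3 : (S.card : ℝ) ≤ (S.filter (fun n => p X n)).card + (S.filter (fun n => q X n)).card := by
    exact_mod_cast (card_le_card e).trans (card_union_le _ _)
  have b1 : (X : ℝ) ^ (1 - c1) ≤ (X : ℝ) ^ (1 - min c1 c2) :=
    Real.rpow_le_rpow_of_exponent_le hX1 (by linarith [min_le_left c1 c2])
  have b2 : (X : ℝ) ^ (1 - c2) ≤ (X : ℝ) ^ (1 - min c1 c2) :=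
    Real.rpow_le_rpow_of_exponent_le hX1 (by linarith [min_le_right c1 c2])
  have := h3 X g3
  linarith

theorem Small.exists {p : ℕ → ℕ → ℕ → Prop} (K : ℕ) (hp : ∀ k < K, Small (p k)) :
    Small (fun X n => ∃ k < K, p k X n) := by
  induction K with
  | zero =>
    refine ⟨1, one_pos, 1, fun X hX S hS => ?_⟩
    have : S = ∅ := by
      rw [eq_empty_iff_forall_notMem]
      intro n hn
      obtain ⟨k, hk, _⟩ := (hS n hn).2.2
      omega
    rw [this]
    simp
  | succ K ih =>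
    have h1 := (ih (fun k hk => hp k (by omega))).or (hp K (by omega))
    obtain ⟨c, hc, X0, h⟩ := h1
    refine ⟨c, hc, X0, fun X hX S hS => h X hX S (fun n hn => ?_)⟩
    obtain ⟨g1, g2, k, hk, hpk⟩ := hS n hn
    refine ⟨g1, g2, ?_⟩
    rcases Nat.lt_succ_iff_lt_or_eq.1 hk with h' | h'
    · exact Or.inl ⟨k, h', hpk⟩
    · exact Or.inr (h' ▸ hpk)

/-- **The windows of the numbers `α f(n) + β`.** -/
theorem small_windows {θ : ℝ} {k0 : ℕ} {s : ℝ} {c : ℕ → ℝ} {f : ℕ → ℝ → ℝ} (hf : Fam θ k0 s c f)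
    (b k : ℕ) (hb : 2 ≤ b) (hk : 1 ≤ k) (α β : ℝ) (hα : α ≠ 0) (A δ ε : ℝ) (hA : 0 < A)
    (hδ : 0 < δ) (hε : 0 < ε) (hε1 : ε ≤ 1) (g0 : ℝ) (hg0 : 0 ≤ g0) (hgε : g0 ≤ ε * δ / 8)
    (hE : ((max 2 k0 : ℕ) : ℝ) - 2 - θ < g0 * Real.log b) :
    Small (fun X n => ∃ (w : Fin k → Fin b) (i L : ℕ), δ * Real.log X ≤ L ∧
      ((i + L : ℕ) : ℝ) ≤ A * Real.log X ∧ ε * L < dv b k w (α * f 0 n + β) i L) := by
  classical
  have hkR : (1 : ℝ) ≤ k := by exact_mod_cast hk
  obtain ⟨κ, hκ, hκ0, c', hc', X0, hcore⟩ := core hf b k hb hk (ε / 4) (by positivity) (by linarith)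
    α β hα g0 A hg0 hA hE (ε * δ / (4 * k)) (by positivity)
  have t : Filter.Tendsto (fun X : ℕ => Real.log X) Filter.atTop Filter.atTop :=
    Real.tendsto_log_atTop.comp tendsto_natCast_atTop_atTop
  obtain ⟨X1, hX1⟩ := Filter.eventually_atTop.1
    (t.eventually_ge_atTop (max (max 1 ((4 / ε + 2) / κ)) (16 / (ε * δ))))
  refine ⟨c', hc', max X0 X1, fun X hX S hS => ?_⟩
  have g0X := (le_max_left X0 X1).trans hX
  have g1X := hX1 X ((le_max_right X0 X1).trans hX)
  simp only [max_le_iff] at g1X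
  obtain ⟨⟨hlog1, hlog2⟩, hlog3⟩ := g1X
  have hlog2' : 4 / ε + 2 ≤ κ * Real.log X := by
    rw [div_le_iff₀ hκ] at hlog2; linarith
  have hlog3' : 16 ≤ ε * δ * Real.log X := by
    rw [div_le_iff₀ (by positivity)] at hlog3; linarith
  set tt : ℕ := ⌊κ * Real.log X⌋₊ with htt
  have htt1 : 4 / ε ≤ tt := by
    have := Nat.lt_floor_add_one (κ * Real.log X)
    linarith
  have h4ε : 0 < 4 / ε := by positivity
  have httpos : (0 : ℝ) < tt := by linarith
  have htt0 : 1 ≤ tt := by exact_mod_cast (by exact_mod_cast httpos : 0 < tt)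
  have httle : (tt : ℝ) ≤ κ * Real.log X := Nat.floor_le (by positivity)
  have hsub : S ⊆ (Icc 1 X).filter (fun n : ℕ => ∃ i : ℕ, g0 * Real.log X ≤ i ∧
      (i : ℝ) ≤ A * Real.log X ∧ BadAt b k tt (ε / 4) (α * f 0 n + β) i) := by
    intro n hn
    obtain ⟨hn1, hn2, w, i, L, hL1, hL2, hbad⟩ := hS n hn
    rw [mem_filter, mem_Icc]
    refine ⟨⟨hn1, hn2⟩, ?_⟩
    by_contra hcon
    push Not at hcon
    set lo : ℕ := ⌈g0 * Real.log X⌉₊ with hlo
    have hwin := windows b k hb hk (α * f 0 n + β) tt htt0 (ε / 4) (by positivity) lo (i + L)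
      (fun j hj1 hj2 => hcon j (by
        have := Nat.le_ceil (g0 * Real.log X)
        have h2 : (lo : ℝ) ≤ j := by exact_mod_cast hj1
        linarith) (by
        have h2 : (j : ℝ) ≤ ((i + L : ℕ) : ℝ) := by exact_mod_cast hj2
        linarith)) w i L le_rfl
    have hL0 : (0 : ℝ) < L := by
      have : 0 < δ * Real.log X := by positivity
      linarith
    -- the three error terms
    have e1 : (lo : ℝ) ≤ ε / 4 * L := by
      have h1 : (lo : ℝ) < g0 * Real.log X + 1 := Nat.ceil_lt_add_one (by positivity)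
      have h2 : g0 * Real.log X ≤ ε * δ / 8 * Real.log X :=
        mul_le_mul_of_nonneg_right hgε (by linarith)
      have h3 : ε / 4 * (δ * Real.log X) ≤ ε / 4 * L := mul_le_mul_of_nonneg_left hL1 (by positivity)
      nlinarith
    have e2 : (k : ℝ) * tt ≤ ε / 4 * L := by
      calc (k : ℝ) * tt ≤ k * (κ * Real.log X) := mul_le_mul_of_nonneg_left httle (by positivity)
        _ ≤ k * (ε * δ / (4 * k) * Real.log X) := by gcongr
        _ = ε / 4 * (δ * Real.log X) := by field_simp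
        _ ≤ ε / 4 * L := mul_le_mul_of_nonneg_left hL1 (by positivity)
    have e3 : (ε / 4 + 1 / (tt : ℝ)) * L ≤ (ε / 4 + ε / 4) * L := by
      apply mul_le_mul_of_nonneg_right _ hL0.le
      have : 1 / (tt : ℝ) ≤ ε / 4 := by
        rw [div_le_iff₀ httpos]
        have h5 : ε / 4 * (4 / ε) = 1 := by field_simp
        calc (1 : ℝ) = ε / 4 * (4 / ε) := h5.symm
          _ ≤ ε / 4 * tt := mul_le_mul_of_nonneg_left htt1 (by positivity)
      linarith
    linarith
  have h1 := hcore X g0X (fun n : ℕ => ∃ i : ℕ, g0 * Real.log X ≤ i ∧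
      (i : ℝ) ≤ A * Real.log X ∧ BadAt b k tt (ε / 4) (α * f 0 n + β) i) (Classical.decPred _)
      (fun n hn => hn)
  have h2 : (S.card : ℝ) ≤ ((Icc 1 X).filter (fun n : ℕ => ∃ i : ℕ, g0 * Real.log X ≤ i ∧
      (i : ℝ) ≤ A * Real.log X ∧ BadAt b k tt (ε / 4) (α * f 0 n + β) i)).card := by
    exact_mod_cast card_le_card hsub
  refine h2.trans ?_
  convert h1

end Pool.Agent.TH373.DR
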